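import Mathlib

set_option autoImplicit false

namespace Pool.Agent.Results.MP_5ee7f3_co.Example

open SimpleGraph

/-- `G` contains an immersion of `K_d`. -/
def HasImmersion {V : Type} (G : SimpleGraph V) (d : ℕ) : Prop :=
  ∃ (v : Fin d → V) (P : ∀ i j, G.Walk (v i) (v j)), Function.Injective v ∧
    (∀ i j, i < j → (P i j).IsPath) ∧
    ∀ i j k l, i < j → k < l → (i, j) ≠ (k, l) → ∀ e ∈ (P i j).edges, e ∉ (P k l).edges

abbrev V : Type := Fin 9 × Option (Fin 4 × Fin 3)

def adjB : V → V → Bool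
  | (i, none), (j, none) => i != j
  | (i, none), (j, some z) => i == j && z == (0, 0)
  | (i, some z), (j, none) => i == j && z == (0, 0)
  | (i, some z), (j, some w) => i == j && z.1 != w.1

def G : SimpleGraph V where
  Adj a b := adjB a b = true
  symm := ⟨by decide +kernel⟩
  loopless := ⟨by decide +kernel⟩

instance : DecidableRel G.Adj := fun a b => inferInstanceAs (Decidable (adjB a b = true))

def S (c : Fin 9) (a : V) : Prop := a.1 = c ∧ a.2 ≠ none

instance (c : Fin 9) (a : V) : Decidable (S c a) := by unfold S; infer_instance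

lemma bdry : ∀ (c : Fin 9) (a b : V), G.Adj a b → S c a → ¬ S c b →
    a = (c, some (0, 0)) ∧ b = (c, none) := by decide +kernel

lemma cross {c : Fin 9} {a b : V} (p : G.Walk a b) (ha : S c a) (hb : ¬ S c b) :
    s((c, some (0, 0)), (c, none)) ∈ p.edges := by
  obtain ⟨d, hd, h1, h2⟩ := p.exists_boundary_dart {x | S c x} ha hb
  obtain ⟨h3, h4⟩ := bdry c _ _ d.adj h1 h2
  rw [← h3, ← h4]
  exact List.mem_map.2 ⟨d, hd, rfl⟩

lemma stay {c : Fin 9} {a b : V} (p : G.Walk a b) (hp : p.IsPath) (ha : S c a) (hb : S c b) :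
    ∀ w ∈ p.support, S c w := by
  intro w hw
  by_contra hn
  have h1 := cross (p.takeUntil w hw) ha hn
  have h2 := cross (p.dropUntil w hw).reverse hb hn
  rw [Walk.edges_reverse, List.mem_reverse] at h2
  have h3 := hp.isTrail.edges_nodup
  rw [← p.take_spec hw, Walk.edges_append, List.nodup_append] at h3
  exact h3.2.2 _ h1 _ h2 rfl

lemma first {a b : V} (p : G.Walk a b) (h : a ≠ b) :
    ∃ w, G.Adj a w ∧ w ∈ p.support ∧ s(a, w) ∈ p.edges := by
  cases p with
  | nil => exact absurd rfl h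
  | cons h q => exact ⟨_, h, by simp, by simp⟩

lemma shape {a b x y : V} (p : G.Walk a b) (hp : p.IsPath) (hab : a ≠ b) (hn : ¬ G.Adj a b)
    (hs : ∀ w ∈ p.support, w = a ∨ w = b ∨ w = x ∨ w = y) :
    (s(a, x) ∈ p.edges ∧ s(b, x) ∈ p.edges) ∨ (s(a, y) ∈ p.edges ∧ s(b, y) ∈ p.edges) ∨
      s(x, y) ∈ p.edges := by
  cases p with
  | nil => exact absurd rfl hab
  | cons h q =>
    rename_i u
    rw [Walk.cons_isPath_iff] at hp
    have hub : u ≠ b := fun e => hn (e ▸ h)
    obtain ⟨w, h1, h2, h3⟩ := first q hub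
    have hwa : w ≠ a := fun e => hp.2 (e ▸ h2)
    have hu := hs u (by simp)
    have hw := hs w (by simp [h2])
    simp only [Walk.edges_cons, List.mem_cons]
    rcases hu with rfl | rfl | rfl | rfl
    · exact absurd h (G.irrefl)
    · exact absurd rfl hub
    · rcases hw with rfl | rfl | rfl | rfl
      · exact absurd rfl hwa
      · exact Or.inl ⟨Or.inl rfl, Or.inr (Sym2.eq_swap ▸ h3)⟩
      · exact absurd h1 (G.irrefl)
      · exact Or.inr (Or.inr (Or.inr h3))
    · rcases hw with rfl | rfl | rfl | rfl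
      · exact absurd rfl hwa
      · exact Or.inr (Or.inl ⟨Or.inl rfl, Or.inr (Sym2.eq_swap ▸ h3)⟩)
      · exact Or.inr (Or.inr (Or.inr (Sym2.eq_swap ▸ h3)))
      · exact absurd h1 (G.irrefl)

lemma nbr : ∀ (c : Fin 9) (a : V), S c a →
    (Finset.univ.filter fun w => G.Adj a w ∧ S c w).card = 9 := by decide +kernel

lemma core (v : Fin 10 → V) (Q : ∀ i j, G.Walk (v i) (v j)) (hv : Function.Injective v)
    (hp : ∀ i j, i ≠ j → (Q i j).IsPath)
    (hd : ∀ i j k l, i ≠ j → k ≠ l → ¬ (i = k ∧ j = l) → ¬ (i = l ∧ j = k) →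
      ∀ e ∈ (Q i j).edges, e ∉ (Q k l).edges) : False := by
  classical
  obtain ⟨i0, c, h0⟩ : ∃ i c, S c (v i) := by
    by_contra hn
    push Not at hn
    have h1 : ∀ i, (v i).2 = none := fun i => by
      by_contra h; exact hn i _ ⟨rfl, h⟩
    have h2 : Function.Injective fun i => (v i).1 := fun i j h =>
      hv (Prod.ext h ((h1 i).trans (h1 j).symm))
    have := Fintype.card_le_of_injective _ h2
    simp at this
  have hall : ∀ j, S c (v j) := by
    intro j
    by_contra hj
    have hij : i0 ≠ j := fun h => hj (h ▸ h0)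
    obtain ⟨k, hk1, hk2⟩ := (show ∀ a b : Fin 10, ∃ k, k ≠ a ∧ k ≠ b by decide +kernel) i0 j
    by_cases hk : S c (v k)
    · exact hd i0 j k j hij hk2 (fun h => hk1 h.1.symm) (fun h => hij h.1) _
        (cross _ h0 hj) (cross _ hk hj)
    · exact hd i0 j i0 k hij hk1.symm (fun h => hk2 h.2.symm) (fun h => hk1 h.1.symm) _
        (cross _ h0 hj) (cross _ h0 hk)
  have hst : ∀ i j, i ≠ j → ∀ w ∈ (Q i j).support, S c w := fun i j h =>
    stay _ (hp i j h) (hall i) (hall j)
  have hint : ∀ i k l, k ≠ l → i ≠ k → i ≠ l → v i ∉ (Q k l).support := by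
    intro i k l hkl hik hil hm
    have hf : ∀ j, ∃ w, i ≠ j → G.Adj (v i) w ∧ w ∈ (Q i j).support ∧
        s(v i, w) ∈ (Q i j).edges := by
      intro j
      by_cases h : i = j
      · exact ⟨v i, fun h' => absurd h h'⟩
      · obtain ⟨w, hw⟩ := first (Q i j) (fun e => h (hv e))
        exact ⟨w, fun _ => hw⟩
    choose f hf using hf
    have hsur := Finset.surjOn_of_injOn_of_card_le (s := Finset.univ.erase i)
      (t := Finset.univ.filter fun w => G.Adj (v i) w ∧ S c w) f
      (fun j hj => by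
        have hj' : i ≠ j := (Finset.ne_of_mem_erase (Finset.mem_coe.1 hj)).symm
        simpa using ⟨(hf j hj').1, hst i j hj' _ (hf j hj').2.1⟩)
      (fun j hj j' hj' h => by
        have h1 : i ≠ j := (Finset.ne_of_mem_erase (Finset.mem_coe.1 hj)).symm
        have h2 : i ≠ j' := (Finset.ne_of_mem_erase (Finset.mem_coe.1 hj')).symm
        by_contra hne
        exact hd i j i j' h1 h2 (fun h => hne h.2) (fun h => h2 h.1) _ (hf j h1).2.2
          (h ▸ (hf j' h2).2.2))
      (by rw [nbr c _ (hall i)]; simp)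
    obtain ⟨w, h1, h2, h3⟩ := first ((Q k l).dropUntil _ hm) (fun e => hil (hv e))
    have h4 := hst k l hkl w ((Q k l).support_dropUntil_subset_support hm h2)
    obtain ⟨j, hj, rfl⟩ := hsur (show w ∈ ((Finset.univ.filter
      fun w => G.Adj (v i) w ∧ S c w : Finset V) : Set V) by simpa using ⟨h1, h4⟩)
    have hj' : i ≠ j := (Finset.ne_of_mem_erase (Finset.mem_coe.1 hj)).symm
    exact hd i j k l hj' hkl (fun h => hik h.1) (fun h => hil h.1) _ (hf j hj').2.2
      ((Q k l).edges_dropUntil_subset_edges hm h3)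
  obtain ⟨x, y, hxy⟩ : ∃ x y : V, ∀ w, S c w → (∃ i, v i = w) ∨ w = x ∨ w = y := by
    have h1 := (show ∀ c, (Finset.univ.filter (S c)).card = 12 by decide +kernel) c
    have h2 : Finset.univ.image v ⊆ Finset.univ.filter (S c) := by
      intro w hw
      obtain ⟨i, -, rfl⟩ := Finset.mem_image.1 hw
      simpa using hall i
    have h3 := Finset.card_sdiff_add_card_eq_card h2
    rw [Finset.card_image_of_injective _ hv, h1, Finset.card_univ, Fintype.card_fin] at h3
    obtain ⟨x, y, -, h4⟩ := Finset.card_eq_two.1 (show (Finset.univ.filter (S c) \ Finset.univ.image v).card = 2 by omega)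
    refine ⟨x, y, fun w hw => ?_⟩
    by_cases h : w ∈ Finset.univ.image v
    · left; simpa using h
    · right
      have : w ∈ ({x, y} : Finset V) := by
        rw [← h4]; exact Finset.mem_sdiff.2 ⟨by simpa using hw, h⟩
      simpa using this
  have hsh : ∀ i j, i ≠ j → ¬ G.Adj (v i) (v j) →
      (s(v i, x) ∈ (Q i j).edges ∧ s(v j, x) ∈ (Q i j).edges) ∨
      (s(v i, y) ∈ (Q i j).edges ∧ s(v j, y) ∈ (Q i j).edges) ∨ s(x, y) ∈ (Q i j).edges := by
    intro i j hij hn
    refine shape _ (hp i j hij) (fun e => hij (hv e)) hn fun w hw => ?_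
    rcases hxy w (hst i j hij w hw) with ⟨k, rfl⟩ | h | h
    · by_cases h1 : k = i
      · exact Or.inl (by rw [h1])
      · by_cases h2 : k = j
        · exact Or.inr (Or.inl (by rw [h2]))
        · exact absurd hw (hint k i j hij h1 h2)
    · exact Or.inr (Or.inr (Or.inl h))
    · exact Or.inr (Or.inr (Or.inr h))
  have full : ∀ p : Fin 4, (∀ q, (c, some (p, q)) ≠ x ∧ (c, some (p, q)) ≠ y) →
      ∃ i j, i ≠ j ∧ (∃ q, v i = (c, some (p, q))) ∧ (∃ q, v j = (c, some (p, q))) ∧
        s(x, y) ∈ (Q i j).edges := by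
    intro p h
    have hc : ∀ q, ∃ i, v i = (c, some (p, q)) := fun q =>
      ((hxy _ ⟨rfl, by simp⟩).resolve_right (not_or.2 (h q)))
    choose g hg using hc
    have hne : ∀ q q', q ≠ q' → g q ≠ g q' := by
      intro q q' h1 h2
      have := hg q
      rw [h2, hg q'] at this
      simp only [Prod.mk.injEq, Option.some.injEq, true_and] at this
      exact h1 this.symm
    have hna : ∀ q q', ¬ G.Adj (v (g q)) (v (g q')) := by
      intro q q'
      rw [hg, hg]
      change ¬ adjB _ _ = true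
      simp [adjB]
    have n01 := hne 0 1 (by decide)
    have n02 := hne 0 2 (by decide)
    have n12 := hne 1 2 (by decide)
    have d1 := hd _ _ _ _ n01 n02 (fun h => n12 h.2) (fun h => n02 h.1)
    have d2 := hd _ _ _ _ n01 n12 (fun h => n01 h.1) (fun h => n02 h.1)
    have d3 := hd _ _ _ _ n02 n12 (fun h => n01 h.1) (fun h => n02 h.1)
    rcases hsh _ _ n01 (hna _ _) with a | a | a
    · rcases hsh _ _ n02 (hna _ _) with b | b | b
      · exact absurd b.1 (d1 _ a.1)
      · rcases hsh _ _ n12 (hna _ _) with e | e | e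
        · exact absurd e.1 (d2 _ a.2)
        · exact absurd e.2 (d3 _ b.2)
        · exact ⟨_, _, n12, ⟨_, hg _⟩, ⟨_, hg _⟩, e⟩
      · exact ⟨_, _, n02, ⟨_, hg _⟩, ⟨_, hg _⟩, b⟩
    · rcases hsh _ _ n02 (hna _ _) with b | b | b
      · rcases hsh _ _ n12 (hna _ _) with e | e | e
        · exact absurd e.2 (d3 _ b.2)
        · exact absurd e.1 (d2 _ a.2)
        · exact ⟨_, _, n12, ⟨_, hg _⟩, ⟨_, hg _⟩, e⟩
      · exact absurd b.1 (d1 _ a.1)
      · exact ⟨_, _, n02, ⟨_, hg _⟩, ⟨_, hg _⟩, b⟩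
    · exact ⟨_, _, n01, ⟨_, hg _⟩, ⟨_, hg _⟩, a⟩
  let pr : V → Fin 4 := fun a => (a.2.getD (0, 0)).1
  obtain ⟨p, p', hpp, h1, h2, h3, h4⟩ : ∃ p p' : Fin 4, p ≠ p' ∧ p ≠ pr x ∧ p ≠ pr y ∧
      p' ≠ pr x ∧ p' ≠ pr y := by
    generalize pr x = a, pr y = b
    revert a b
    decide
  obtain ⟨i, j, hij, ⟨q1, e1⟩, ⟨q2, e2⟩, e⟩ := full p fun q =>
    ⟨fun h => h1 (by rw [← h]; rfl), fun h => h2 (by rw [← h]; rfl)⟩
  obtain ⟨k, l, hkl, ⟨q3, e3⟩, ⟨q4, e4⟩, e'⟩ := full p' fun q =>
    ⟨fun h => h3 (by rw [← h]; rfl), fun h => h4 (by rw [← h]; rfl)⟩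
  refine hd i j k l hij hkl (fun h => hpp ?_) (fun h => hpp ?_) _ e e'
  · rw [h.1, e3] at e1
    exact (congrArg pr e1).symm
  · rw [h.1, e4] at e1
    exact (congrArg pr e1).symm

lemma no_imm : ¬ HasImmersion G 10 := by
  rintro ⟨v, P, hv, hp, hd⟩
  refine core v (fun i j => if i < j then P i j else (P j i).reverse) hv ?_ ?_
  · intro i j hij
    split_ifs with h
    · exact hp i j h
    · exact (hp j i (by omega)).reverse
  · intro i j k l hij hkl h1 h2 e
    split_ifs with a b b <;> try simp only [Walk.edges_reverse, List.mem_reverse]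
    · exact hd i j k l a b (by simpa using h1) e
    · exact hd i j l k a (by omega) (by simpa using h2) e
    · exact hd j i k l (by omega) b (by simp only [ne_eq, Prod.mk.injEq]; tauto) e
    · exact hd j i l k (by omega) (by omega) (by simp only [ne_eq, Prod.mk.injEq]; tauto) e

def col : V → Fin 9
  | (i, none) => i
  | (i, some z) => i + 1 + Fin.castLE (by norm_num) z.1

theorem result : ∃ (d : ℕ) (W : Type) (_ : Fintype W) (H : SimpleGraph W)
    (_ : DecidableRel H.Adj), 1 ≤ d ∧ H.minDegree = d - 1 ∧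
      H.chromaticNumber = ((d - 1 : ℕ) : ℕ∞) ∧ ¬ HasImmersion H d := by
  refine ⟨10, V, inferInstance, G, inferInstance, by norm_num, ?_, ?_, no_imm⟩
  · apply le_antisymm
    · exact (G.minDegree_le_degree (0, none)).trans (by decide +kernel)
    · exact G.le_minDegree_of_forall_le_degree _ (by decide +kernel)
  · apply le_antisymm
    · have : G.Colorable 9 := ⟨Coloring.mk col (by
        have : ∀ a b : V, G.Adj a b → col a ≠ col b := by decide +kernel
        intro a b h
        exact this a b h)⟩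
      exact this.chromaticNumber_le
    · have h : G.IsClique ((Finset.univ.image fun i : Fin 9 => ((i, none) : V) : Finset V) :
          Set V) := by
        intro a ha b hb hab
        simp only [Finset.coe_image, Set.mem_image] at ha hb
        obtain ⟨i, -, rfl⟩ := ha
        obtain ⟨j, -, rfl⟩ := hb
        change adjB _ _ = true
        simpa [adjB] using hab
      have h2 := h.card_le_chromaticNumber
      rwa [Finset.card_image_of_injective _ (fun i j h => congrArg Prod.fst h), Finset.card_univ,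
        Fintype.card_fin] at h2

end Pool.Agent.Results.MP_5ee7f3_co.Example
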